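import Mathlib

namespace Pool.Agent.Results.MP_b53726_co.Q2

/-- an array with rows and columns indexed by `I`, symbols `Option I` (`none` is the symbol 0) -/
abbrev Arr (I : Type) := I → I → Option (Sym2 (Option I))

/-- Room square -/
structure IsRoom {I : Type} (c : Arr I) : Prop where
  nd : ∀ i j x, c i j ≠ some s(x, x)
  once : ∀ x y, x ≠ y → ∃! q : I × I, c q.1 q.2 = some s(x, y)
  row : ∀ i x, ∃! j, ∃ y, c i j = some s(x, y)
  col : ∀ j x, ∃! i, ∃ y, c i j = some s(x, y)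

def Std {I : Type} (c : Arr I) : Prop := ∀ i, c i i = some s(none, some i)

def Iso {I : Type} (c d : Arr I) : Prop :=
  ∃ (ρ γ : Equiv.Perm I) (σ : Equiv.Perm (Option I)),
    ∀ i j, d i j = (c (ρ i) (γ j)).map (Sym2.map σ)

def Compl {I : Type} (c d : Arr I) : Prop := ∀ i j, i ≠ j → (c i j).isSome ≠ (d i j).isSome

def HasCompl {I : Type} (c : Arr I) : Prop :=
  ∃ d e : Arr I, Iso c d ∧ IsRoom d ∧ Std d ∧ IsRoom e ∧ Std e ∧ Compl d e

def Skew {I : Type} (c : Arr I) : Prop := Std c ∧ ∀ i j, i ≠ j → (c i j).isSome ≠ (c j i).isSome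

abbrev K := ZMod 13

def mk (r : K → Option (K × K)) : Arr K := fun i j =>
  if i = j then some s(none, some i) else (r (j - i)).map fun p => s(some (p.1 + i), some (p.2 + i))

def B1 : Arr K := mk ![none, some (9, 10), none, none, none, some (6, 8), some (3, 12), some (5, 11),
  some (2, 7), none, none, none, some (1, 4)]
def B2 : Arr K := mk ![none, none, some (4, 10), some (6, 9), some (3, 11), none, none, none, none,
  some (5, 7), some (1, 2), some (8, 12), none]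

lemma r1 : IsRoom B1 := by
  refine ⟨by decide +kernel, ?_, ?_, ?_⟩ <;> unfold ExistsUnique <;> decide +kernel
lemma r2 : IsRoom B2 := by
  refine ⟨by decide +kernel, ?_, ?_, ?_⟩ <;> unfold ExistsUnique <;> decide +kernel
lemma s1 : Std B1 := fun i => by simp [B1, mk]
lemma s2 : Std B2 := fun i => by simp [B2, mk]
lemma c12 : Compl B1 B2 := by unfold Compl; decide +kernel
lemma ns : ∀ s : Option K, ∃ a a' b b' : K, a ≠ b ∧ (∃ y, B1 a a' = some s(s, y)) ∧
    (∃ y, B1 b b' = some s(s, y)) ∧ (B1 a b').isSome = (B1 b a').isSome := by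
  have : ∀ s : Option K, ∃ a a' : K, (∃ y, B1 a a' = some s(s, y)) ∧ ∃ b, a ≠ b ∧ ∃ b' : K,
    (∃ y, B1 b b' = some s(s, y)) ∧ (B1 a b').isSome = (B1 b a').isSome := by decide +kernel
  intro s
  obtain ⟨a, a', h1, b, h2, b', h3, h4⟩ := this s
  exact ⟨a, a', b, b', h2, h1, h3, h4⟩

/-- a linear space all of whose lines are charts of `K` -/
structure Lin {I : Type} (L : Set (K → I)) : Prop where
  inj : ∀ φ ∈ L, Function.Injective φ
  ex : ∀ i j, i ≠ j → ∃ φ ∈ L, ∃ a b, φ a = i ∧ φ b = j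
  un : ∀ φ ∈ L, ∀ ψ ∈ L, ∀ a b a' b', a ≠ b → φ a = ψ a' → φ b = ψ b' → φ = ψ

variable {I : Type} {L : Set (K → I)}

def Key (L : Set (K → I)) (B : Arr K) (c : Arr I) : Prop :=
  Std c ∧ ∀ φ ∈ L, ∀ a b, c (φ a) (φ b) = (B a b).map (Sym2.map (Option.map φ))

lemma build (h : Lin L) (B : Arr K) (hB : Std B) : ∃ c, Key L B c := by
  classical
  choose φ h1 a b h2 h3 using h.ex
  refine ⟨fun i j => if e : i = j then some s(none, some i) else
    (B (a i j e) (b i j e)).map (Sym2.map (Option.map (φ i j e))), fun i => by simp, ?_⟩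
  intro ψ hψ x y
  by_cases e : x = y
  · subst e; simp [hB x]
  · have e' : ψ x ≠ ψ y := fun c => e (h.inj _ hψ c)
    have := h.un _ hψ _ (h1 _ _ e') x y _ _ e (h2 _ _ e').symm (h3 _ _ e').symm
    have p := h2 _ _ e'
    have q := h3 _ _ e'
    simp only [e', dite_false]
    rw [← this] at p q ⊢
    rw [h.inj _ hψ p, h.inj _ hψ q]

lemma off (h : Lin L) {B : Arr K} (hB : IsRoom B) (sB : Std B) {c : Arr I} (k : Key L B c)
    {i j : I} (e : i ≠ j) {x y : Option I} (hc : c i j = some s(x, y)) :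
    ∃ φ ∈ L, ∃ a b u v, φ a = i ∧ φ b = j ∧ x = some (φ u) ∧ y = some (φ v) ∧ u ≠ v ∧ u ≠ a ∧
      B a b = some s(some u, some v) := by
  obtain ⟨φ, hφ, a, b, rfl, rfl⟩ := h.ex i j e
  have ab : a ≠ b := fun c => e (by rw [c])
  rw [k.2 φ hφ] at hc
  obtain ⟨p, hp, hp'⟩ := Option.map_eq_some_iff.1 hc
  have : ∃ x' y', p = s(x', y') ∧ Option.map φ x' = x ∧ Option.map φ y' = y := by
    induction p using Sym2.ind with
    | h x' y' =>
      rcases Sym2.eq_iff.1 hp' with t | t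
      · exact ⟨x', y', rfl, t⟩
      · exact ⟨y', x', Sym2.eq_swap, t.2, t.1⟩
  obtain ⟨x', y', rfl, rfl, rfl⟩ := this
  have n1 : ∀ z, B a b ≠ some s(none, z) := fun z t =>
    ab ((hB.row a none).unique ⟨_, sB a⟩ ⟨_, t⟩)
  cases x' with
  | none => exact absurd hp (n1 _)
  | some u =>
  cases y' with
  | none => exact absurd (hp.trans (by rw [Sym2.eq_swap])) (n1 _)
  | some v =>
    refine ⟨φ, hφ, a, b, u, v, rfl, rfl, rfl, rfl, ?_, ?_, hp⟩
    · rintro rfl; exact hB.nd _ _ _ hp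
    · rintro rfl
      exact ab ((hB.row u (some u)).unique ⟨none, (sB u).trans (by rw [Sym2.eq_swap])⟩ ⟨_, hp⟩)

lemma rows (h : Lin L) {B : Arr K} (hB : IsRoom B) (sB : Std B) {c : Arr I} (k : Key L B c)
    (i : I) (x : Option I) : ∃! j, ∃ y, c i j = some s(x, y) := by
  by_cases e : x = none ∨ x = some i
  · refine ⟨i, ?_, ?_⟩
    · rcases e with rfl | rfl
      · exact ⟨_, k.1 i⟩
      · exact ⟨none, (k.1 i).trans (by rw [Sym2.eq_swap])⟩
    · rintro j ⟨y, hy⟩
      by_contra ne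
      obtain ⟨φ, hφ, a, b, u, v, rfl, rfl, rfl, rfl, -, t, -⟩ := off h hB sB k (Ne.symm ne) hy
      rcases e with e | e
      · cases e
      · exact t (h.inj _ hφ (Option.some.inj e))
  · push Not at e
    obtain ⟨w, rfl⟩ := Option.ne_none_iff_exists'.1 e.1
    have wi : i ≠ w := fun c => e.2 (by rw [c])
    obtain ⟨φ, hφ, a, u, rfl, rfl⟩ := h.ex i w wi
    obtain ⟨b, ⟨y, hy⟩, hb⟩ := hB.row a (some u)
    refine ⟨φ b, ⟨Option.map φ y, by rw [k.2 φ hφ, hy]; rfl⟩, ?_⟩
    rintro j ⟨z, hz⟩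
    have ne : φ a ≠ j := by
      rintro rfl
      rw [k.1] at hz
      rcases Sym2.eq_iff.1 (Option.some.inj hz) with t | t
      · cases t.1
      · exact e.2 t.2.symm
    obtain ⟨ψ, hψ, a', b', u', v, t1, rfl, t2, rfl, -, -, t⟩ := off h hB sB k ne hz
    obtain rfl := h.un _ hφ _ hψ a u a' u' (fun c => wi (by rw [c])) t1.symm (Option.some.inj t2)
    obtain rfl := h.inj _ hφ t1
    obtain rfl := h.inj _ hφ (Option.some.inj t2)
    rw [hb b' ⟨_, t⟩]

lemma room (h : Lin L) {B : Arr K} (hB : IsRoom B) (sB : Std B) {c : Arr I} (k : Key L B c) :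
    IsRoom c := by
  have nn : ∀ i, ∃! q : I × I, c q.1 q.2 = some s(none, some i) := by
    intro i
    refine ⟨(i, i), k.1 i, ?_⟩
    rintro ⟨p, q⟩ hq
    by_cases e : p = q
    · subst e
      have := (k.1 p).symm.trans hq
      simp at this
      rw [this]
    · obtain ⟨φ, hφ, a, b, u, v, -, -, t, -⟩ := off h hB sB k e hq
      cases t
  refine ⟨?_, ?_, rows h hB sB k, fun j x => rows h (B := fun a b => B b a) (c := fun a b => c b a)
    ⟨fun i j => hB.nd j i, fun x y e => ?_, hB.col, hB.row⟩ sB ⟨k.1, fun φ hφ a b => k.2 φ hφ b a⟩ j x⟩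
  · intro i j x hx
    by_cases e : i = j
    · subst e; rw [k.1] at hx; simp at hx; cases hx.1.trans hx.2.symm
    · obtain ⟨φ, hφ, a, b, u, v, -, -, rfl, t, t', -⟩ := off h hB sB k e hx
      exact t' (h.inj _ hφ (Option.some.inj t))
  · intro x y e
    cases x with
    | none =>
      cases y with
      | none => exact absurd rfl e
      | some i => exact nn i
    | some i =>
      cases y with
      | none => simpa only [Sym2.eq_swap] using nn i
      | some j =>
        have ij : i ≠ j := fun c => e (by rw [c])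
        obtain ⟨φ, hφ, u, v, rfl, rfl⟩ := h.ex i j ij
        have uv : u ≠ v := fun c => ij (by rw [c])
        obtain ⟨q, hq, hq'⟩ := hB.once (some u) (some v) (by simpa using uv)
        refine ⟨(φ q.1, φ q.2), by simp only; rw [k.2 φ hφ, hq]; rfl, ?_⟩
        rintro ⟨p, r⟩ hr
        have ne : p ≠ r := by
          rintro rfl
          have := (k.1 p).symm.trans hr
          simp at this
        obtain ⟨ψ, hψ, a, b, u', v', rfl, rfl, t1, t2, -, -, t⟩ := off h hB sB k ne hr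
        obtain rfl := h.un _ hφ _ hψ u v u' v' uv (Option.some.inj t1) (Option.some.inj t2)
        obtain rfl := h.inj _ hφ (Option.some.inj t1)
        obtain rfl := h.inj _ hφ (Option.some.inj t2)
        rw [← hq' (a, b) t]
  · obtain ⟨q, hq, hq'⟩ := hB.once x y e
    exact ⟨q.swap, hq, fun r hr => by rw [← hq' r.swap hr]; rfl⟩

lemma main [Nontrivial I] (h : Lin L) :
    ∃ c : Arr I, IsRoom c ∧ HasCompl c ∧ ¬ ∃ d, Iso c d ∧ IsRoom d ∧ Skew d := by
  obtain ⟨c, k⟩ := build h B1 s1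
  obtain ⟨e, k'⟩ := build h B2 s2
  have rc := room h r1 s1 k
  refine ⟨c, rc, ⟨c, e, ⟨1, 1, 1, by simp⟩, rc, k.1, room h r2 s2 k', k'.1, ?_⟩, ?_⟩
  · intro i j ij
    obtain ⟨φ, hφ, a, b, rfl, rfl⟩ := h.ex i j ij
    rw [k.2 φ hφ, k'.2 φ hφ, Option.isSome_map, Option.isSome_map]
    exact c12 a b fun c => ij (by rw [c])
  · rintro ⟨d, ⟨ρ, γ, σ, hd⟩, -, sd, sk⟩
    obtain ⟨φ, hφ, s, hs⟩ : ∃ φ ∈ L, ∃ s, Option.map φ s = σ.symm none := by
      cases σ.symm none with
      | none =>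
        obtain ⟨i, j, ij⟩ := exists_pair_ne I
        obtain ⟨φ, hφ, -⟩ := h.ex i j ij
        exact ⟨φ, hφ, none, rfl⟩
      | some i =>
        obtain ⟨j, ij⟩ := exists_ne i
        obtain ⟨φ, hφ, -, b, -, rfl⟩ := h.ex j i ij
        exact ⟨φ, hφ, some b, rfl⟩
    have g : ∀ a a', (∃ y, B1 a a' = some s(s, y)) → γ (ρ.symm (φ a)) = φ a' := by
      rintro a a' ⟨y, hy⟩
      refine (rc.row (φ a) (σ.symm none)).unique ⟨σ.symm (some (ρ.symm (φ a))), ?_⟩
        ⟨Option.map φ y, by rw [k.2 φ hφ, hy, ← hs]; rfl⟩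
      have := (hd _ _).symm.trans (sd (ρ.symm (φ a)))
      rw [Equiv.apply_symm_apply] at this
      obtain ⟨p, hp, hp'⟩ := Option.map_eq_some_iff.1 this
      rw [hp]
      have := congrArg (Sym2.map σ.symm) hp'
      simpa [Sym2.map_map] using this
    obtain ⟨a, a', b, b', ab, t1, t2, t⟩ := ns s
    apply sk (ρ.symm (φ a)) (ρ.symm (φ b)) (fun c => ab (h.inj _ hφ (ρ.symm.injective c)))
    rw [hd, hd, g _ _ t1, g _ _ t2]
    simpa [k.2 φ hφ] using t

lemma ag (n : ℕ) : ∃ L : Set (K → (Fin n → K)), Lin L := by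
  classical
  haveI : Fact (Nat.Prime 13) := ⟨by norm_num⟩
  let ln : (Fin n → K) → (Fin n → K) → K → (Fin n → K) := fun i j t => i + t • (j - i)
  have li : ∀ i j, i ≠ j → Function.Injective (ln i j) := fun i j e s t h =>
    smul_left_injective K (sub_ne_zero.2 e.symm) (add_left_cancel h)
  have lr : ∀ i j s t, s ≠ t → Set.range (ln (ln i j s) (ln i j t)) = Set.range (ln i j) := by
    intro i j s t e
    ext x
    constructor
    · rintro ⟨u, rfl⟩
      exact ⟨s + u * (t - s), by simp only [ln]; module⟩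
    · rintro ⟨u, rfl⟩
      have : t - s ≠ 0 := sub_ne_zero.2 e.symm
      refine ⟨(u - s) / (t - s), ?_⟩
      simp only [ln]
      have : (u - s) / (t - s) * (t - s) = u - s := by field_simp
      linear_combination (norm := module) this • (j - i)
  have : ∀ S : Set (Fin n → K), ∃ φ : K → (Fin n → K), (∃ i j, i ≠ j ∧ S = Set.range (ln i j)) →
      Function.Injective φ ∧ Set.range φ = S := by
    intro S
    by_cases c : ∃ i j, i ≠ j ∧ S = Set.range (ln i j)
    · obtain ⟨i, j, e, rfl⟩ := c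
      exact ⟨ln i j, fun _ => ⟨li i j e, rfl⟩⟩
    · exact ⟨0, fun h => absurd h c⟩
  choose ch hc using this
  refine ⟨{φ | ∃ i j, i ≠ j ∧ φ = ch (Set.range (ln i j))}, ?_, ?_, ?_⟩
  · rintro _ ⟨i, j, e, rfl⟩
    exact (hc _ ⟨i, j, e, rfl⟩).1
  · intro i j e
    have := (hc _ ⟨i, j, e, rfl⟩).2
    obtain ⟨a, ha⟩ : i ∈ Set.range (ch (Set.range (ln i j))) := by rw [this]; exact ⟨0, by simp [ln]⟩
    obtain ⟨b, hb⟩ : j ∈ Set.range (ch (Set.range (ln i j))) := by rw [this]; exact ⟨1, by simp [ln]⟩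
    exact ⟨_, ⟨i, j, e, rfl⟩, a, b, ha, hb⟩
  · have one : ∀ i j, i ≠ j → ∀ a b x y, x ≠ y → x = ch (Set.range (ln i j)) a →
        y = ch (Set.range (ln i j)) b → Set.range (ln i j) = Set.range (ln x y) := by
      intro i j e a b x y xy h1 h2
      have := (hc _ ⟨i, j, e, rfl⟩).2
      obtain ⟨s, rfl⟩ : x ∈ Set.range (ln i j) := by rw [← this]; exact ⟨a, h1.symm⟩
      obtain ⟨t, rfl⟩ : y ∈ Set.range (ln i j) := by rw [← this]; exact ⟨b, h2.symm⟩
      exact (lr i j s t fun c => xy (by rw [c])).symm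
    rintro _ ⟨i, j, e, rfl⟩ _ ⟨i', j', e', rfl⟩ a b a' b' ab h1 h2
    have ne := fun c => ab ((hc _ ⟨i, j, e, rfl⟩).1 c)
    rw [one i j e a b _ _ ne rfl rfl, one i' j' e' a' b' _ _ ne h1 h2]

theorem result : {r : ℕ | Odd r ∧ ∃ c : Arr (Fin r), IsRoom c ∧ HasCompl c ∧
    ¬ ∃ d, Iso c d ∧ IsRoom d ∧ Skew d}.Infinite := by
  apply Set.infinite_of_injective_forall_mem (f := fun n : ℕ => 13 ^ (n + 1))
  · intro a b h
    simpa using Nat.pow_right_injective (by norm_num) h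
  · intro n
    refine ⟨Odd.pow (by decide), ?_⟩
    obtain ⟨L, h⟩ := ag (n + 1)
    let e : (Fin (n + 1) → K) ≃ Fin (13 ^ (n + 1)) := Fintype.equivFinOfCardEq (by simp)
    haveI : Nontrivial (Fin (13 ^ (n + 1))) :=
      Fin.nontrivial_iff_two_le.2 (Nat.one_lt_pow (by omega) (by norm_num))
    apply main (L := {ψ | ∃ φ ∈ L, ψ = e ∘ φ})
    refine ⟨?_, ?_, ?_⟩
    · rintro _ ⟨φ, hφ, rfl⟩
      exact e.injective.comp (h.inj φ hφ)
    · intro i j ij
      obtain ⟨φ, hφ, a, b, h1, h2⟩ := h.ex (e.symm i) (e.symm j) (by simpa using ij)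
      exact ⟨_, ⟨φ, hφ, rfl⟩, a, b, by simp [h1], by simp [h2]⟩
    · rintro _ ⟨φ, hφ, rfl⟩ _ ⟨ψ, hψ, rfl⟩ a b a' b' ab h1 h2
      rw [h.un φ hφ ψ hψ a b a' b' ab (e.injective h1) (e.injective h2)]

end Pool.Agent.Results.MP_b53726_co.Q2
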